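import Mathlib

/-!
# Deterministic partially blind and deterministic multicounter machines with few reversals

For deterministic quasi-realtime machines the languages accepted with at most `c` reversals by
partially blind machines coincide with those of general multicounter machines if and only if
`c = 0`.

For `c ≥ 1` the language `{a^n b^m | n ≤ m}` is accepted with one reversal by a deterministic
one-counter machine in real time. A deterministic partially blind machine cannot accept it, with
any bound on the reversals: on `b, b, b, ...` its moves depend only on the state `q_n` reached after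
`a^n`, and the counters have to be small after `a^n b^m` for `m ≥ n`; so two numbers `n` with the
same `q_n` lead to nearly the same contents of the counters, and by the pigeonhole principle there
are `n < n'` for which the states, the contents, the last directions of the counters and the
numbers of reversals are the same after `a^n` and `a^n'`. Then `a^n' b^n` is accepted.
-/

set_option autoImplicit false

namespace Pool.Agent.Results.MP_24384b_lc.BlindIffNoReversal

/-! ### The model -/

/-- A one-way multicounter machine with input alphabet `α`: a finite set `Q` of states, `k` counters.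
`δ q s z` is the set of the moves which the program allows in state `q` when the scanned symbol is
`s` (`none` at the end of the word) and exactly the counters `i` with `z i = true` are positive. A
move consists of the next state, of a Boolean which says whether the head moves to the right, and of
the changes of the counters (`-1`, `0` or `1` for each counter). -/
structure Machine (α : Type) where
  Q : Type
  k : ℕ
  finQ : Finite Q
  start : Q
  final : Set Q
  δ : Q → Option α → (Fin k → Bool) → Set (Q × Bool × (Fin k → SignType))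

variable {α : Type}

/-- Moves. -/
abbrev Move (M : Machine α) : Type := M.Q × Bool × (Fin M.k → SignType)

/-- A configuration: the state, the part of the word from the scanned cell on, the contents of the
counters (nonnegative integers). -/
structure Config (M : Machine α) where
  state : M.Q
  rest : List α
  count : Fin M.k → ℕ

/-- The initial configuration on the word `w`. -/
def initial (M : Machine α) (w : List α) : Config M where
  state := M.start
  rest := w
  count := fun _ => 0

/-- The move `m` is possible in `c`: it is allowed by the program, the head does not leave the word,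
and no counter becomes negative. -/
def Possible {M : Machine α} (c : Config M) (m : Move M) : Prop :=
  m ∈ M.δ c.state c.rest.head? (fun i => decide (0 < c.count i)) ∧
    (m.2.1 = true → c.rest ≠ []) ∧ ∀ i, 0 ≤ (c.count i : ℤ) + (m.2.2 i : ℤ)

/-- The configuration after the move `m`. -/
def next {M : Machine α} (c : Config M) (m : Move M) : Config M where
  state := m.1
  rest := if m.2.1 = true then c.rest.tail else c.rest
  count := fun i => ((c.count i : ℤ) + (m.2.2 i : ℤ)).toNat

/-- `Comp c ms c'`: the moves `ms` are a computation which leads from `c` to `c'`. -/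
inductive Comp {M : Machine α} : Config M → List (Move M) → Config M → Prop
  | nil (c : Config M) : Comp c [] c
  | cons {c c' : Config M} {m : Move M} {ms : List (Move M)} (h : Possible c m)
      (h' : Comp (next c m) ms c') : Comp c (m :: ms) c'

/-- The directions in which the counters have been changed last after the move `m`, where `D` are
the directions before (`0` for a counter which has not yet been changed). -/
def turn {M : Machine α} (D : Fin M.k → SignType) (m : Move M) : Fin M.k → SignType :=
  fun i => if m.2.2 i = 0 then D i else m.2.2 i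

/-- The number of reversals in a sequence of moves, where `D` are the directions of the last changes
before it: a reversal is a change of a counter in the direction opposite to its last change. -/
def reversals {M : Machine α} : (Fin M.k → SignType) → List (Move M) → ℕ
  | _, [] => 0
  | D, m :: ms => (Finset.univ.filter fun i => m.2.2 i ≠ 0 ∧ D i = - m.2.2 i).card +
      reversals (turn D m) ms

/-- `L_{Rc}(M)`: the words which have an accepting computation with at most `c` reversals. A
computation is accepting if it ends in a final state with every counter equal to `0`, and the word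
has been read. -/
def LR (c : ℕ) (M : Machine α) : Set (List α) :=
  {w | ∃ ms c', Comp (initial M w) ms c' ∧ c'.rest = [] ∧ c'.state ∈ M.final ∧
    (∀ i, c'.count i = 0) ∧ reversals (fun _ => 0) ms ≤ c}

/-- There is a bound on the number of successive moves without a move of the head. -/
def QuasiRealtime (M : Machine α) : Prop :=
  ∃ d : ℕ, ∀ w ms₁ ms₂ (c₁ c₂ : Config M), Comp (initial M w) ms₁ c₁ → Comp c₁ ms₂ c₂ →
    (∀ m ∈ ms₂, m.2.1 = false) → ms₂.length ≤ d

/-- In every configuration at most one move is possible. -/
def Deterministic (M : Machine α) : Prop :=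
  ∀ (c : Config M) (m m' : Move M), Possible c m → Possible c m' → m = m'

/-- The moves do not depend on whether counters are zero. -/
def PartiallyBlind (M : Machine α) : Prop :=
  ∀ q s z z', M.δ q s z = M.δ q s z'

/-- The class QR-DCOUNTER. If `e` is `true` the machines may make moves at the end of the word (that
is, there is an end marker), if `e` is `false` they cannot. -/
def QRDCounter (α : Type) (e : Bool) : Set (Machine α) :=
  {M | QuasiRealtime M ∧ Deterministic M ∧ (e = false → ∀ q z, M.δ q none z = ∅)}

/-- The class QR-DPBLIND. -/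
def QRDPBlind (α : Type) (e : Bool) : Set (Machine α) :=
  {M | M ∈ QRDCounter α e ∧ PartiallyBlind M}

/-- `𝓛_{Rc}` of a class of machines. -/
def LRClass (c : ℕ) (K : Set (Machine α)) : Set (Set (List α)) :=
  {L | ∃ M ∈ K, L = LR c M}

/-! ### General facts -/

theorem Comp.append {M : Machine α} {c₁ c₂ c₃ : Config M} {ms₁ ms₂ : List (Move M)}
    (h₁ : Comp c₁ ms₁ c₂) (h₂ : Comp c₂ ms₂ c₃) : Comp c₁ (ms₁ ++ ms₂) c₃ := by
  induction h₁ with
  | nil c => exact h₂
  | cons h _ ih => exact .cons h (ih h₂)

/-- Directions after a sequence of moves. -/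
def turns {M : Machine α} : (Fin M.k → SignType) → List (Move M) → (Fin M.k → SignType)
  | D, [] => D
  | D, m :: ms => turns (turn D m) ms

theorem reversals_append {M : Machine α} (D : Fin M.k → SignType) (ms₁ ms₂ : List (Move M)) :
    reversals D (ms₁ ++ ms₂) = reversals D ms₁ + reversals (turns D ms₁) ms₂ := by
  induction ms₁ generalizing D with
  | nil => simp [reversals, turns]
  | cons m ms ih => simp [reversals, turns, ih, add_assoc]

/-- Sum of the changes. -/
def total {M : Machine α} (ms : List (Move M)) (i : Fin M.k) : ℤ :=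
  (ms.map fun m => (m.2.2 i : ℤ)).sum

theorem Comp.count {M : Machine α} {c c' : Config M} {ms : List (Move M)} (h : Comp c ms c')
    (i : Fin M.k) : (c'.count i : ℤ) = c.count i + total ms i := by
  induction h with
  | nil c => simp [total]
  | @cons c c' m ms h _ ih =>
    rw [ih]
    have := h.2.2 i
    simp only [next, total, List.map_cons, List.sum_cons]
    rw [Int.toNat_of_nonneg this]
    ring

/-- Without reversals all changes of a counter have the same sign. -/
theorem same_sign {M : Machine α} (ms : List (Move M)) (D : Fin M.k → SignType)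
    (h : reversals D ms = 0) (i : Fin M.k) :
    (D i ≠ -1 ∧ ∀ m ∈ ms, 0 ≤ (m.2.2 i : ℤ)) ∨ (D i ≠ 1 ∧ ∀ m ∈ ms, (m.2.2 i : ℤ) ≤ 0) := by
  induction ms generalizing D with
  | nil =>
    by_cases hD : D i = 1
    · exact Or.inl ⟨by rw [hD]; decide, by simp⟩
    · exact Or.inr ⟨hD, by simp⟩
  | cons m ms ih =>
    simp only [reversals, Nat.add_eq_zero_iff, Finset.card_eq_zero] at h
    obtain ⟨h1, h2⟩ := h
    have h3 : ¬ (m.2.2 i ≠ 0 ∧ D i = - m.2.2 i) := by
      intro hcon
      have : i ∈ Finset.univ.filter fun i => m.2.2 i ≠ 0 ∧ D i = - m.2.2 i := by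
        simpa using hcon
      rw [h1] at this
      simp at this
    have ih' := ih (turn D m) h2
    simp only [turn] at ih'
    simp only [List.mem_cons, forall_eq_or_imp]
    rcases hm : m.2.2 i with _ | _ | _
    · rw [hm] at ih' h3
      simp only [SignType.zero_eq_zero, ↓reduceIte] at ih'
      rcases ih' with ⟨h4, h5⟩ | ⟨h4, h5⟩
      · exact Or.inl ⟨h4, by simp, h5⟩
      · exact Or.inr ⟨h4, by simp, h5⟩
    · rw [hm] at ih' h3
      have e : ((SignType.neg : SignType) = 0) ↔ False := by decide
      simp only [e, if_false] at ih'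
      rcases ih' with ⟨h4, _⟩ | ⟨_, h5⟩
      · exact absurd rfl h4
      · refine Or.inr ⟨fun hD => h3 ⟨by decide, by rw [hD]; decide⟩, by decide, h5⟩
    · rw [hm] at ih' h3
      have e : ((SignType.pos : SignType) = 0) ↔ False := by decide
      simp only [e, if_false] at ih'
      rcases ih' with ⟨_, h5⟩ | ⟨h4, _⟩
      · refine Or.inl ⟨fun hD => h3 ⟨by decide, by rw [hD]; decide⟩, by decide, h5⟩
      · exact absurd rfl h4

theorem zero_of_total {M : Machine α} (ms : List (Move M)) (i : Fin M.k)
    (h : ∀ m ∈ ms, 0 ≤ (m.2.2 i : ℤ)) (h0 : total ms i = 0) : ∀ m ∈ ms, m.2.2 i = 0 := by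
  induction ms with
  | nil => simp
  | cons m ms ih =>
    have hnn : 0 ≤ total ms i := by
      refine List.sum_nonneg ?_
      intro x hx
      obtain ⟨m', hm', rfl⟩ := List.mem_map.mp hx
      exact h m' (by simp [hm'])
    have hm := h m (by simp)
    have h1 : (m.2.2 i : ℤ) + total ms i = 0 := by simpa [total] using h0
    intro m' hm'
    rcases List.mem_cons.mp hm' with rfl | hm'
    · have h2 : (m'.2.2 i : ℤ) = 0 := by omega
      rcases hs : m'.2.2 i with _ | _ | _
      · rfl
      · rw [hs] at h2; exact absurd h2 (by decide)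
      · rw [hs] at h2; exact absurd h2 (by decide)
    · exact ih (fun m'' hm'' => h m'' (by simp [hm''])) (by omega) m' hm'

theorem zero_of_total' {M : Machine α} (ms : List (Move M)) (i : Fin M.k)
    (h : ∀ m ∈ ms, (m.2.2 i : ℤ) ≤ 0) (h0 : total ms i = 0) : ∀ m ∈ ms, m.2.2 i = 0 := by
  induction ms with
  | nil => simp
  | cons m ms ih =>
    have hnn : total ms i ≤ 0 := by
      have h1 : ∀ m ∈ ms, (m.2.2 i : ℤ) ≤ 0 := fun m' hm' => h m' (by simp [hm'])
      clear ih h0 h
      induction ms with
      | nil => simp [total]
      | cons m' ms ih' =>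
        have h2 := ih' (fun m'' hm'' => h1 m'' (by simp [hm'']))
        have h3 := h1 m' (by simp)
        simp only [total, List.map_cons, List.sum_cons] at h2 ⊢
        omega
    have hm := h m (by simp)
    have h1 : (m.2.2 i : ℤ) + total ms i = 0 := by simpa [total] using h0
    intro m' hm'
    rcases List.mem_cons.mp hm' with rfl | hm'
    · have h2 : (m'.2.2 i : ℤ) = 0 := by omega
      rcases hs : m'.2.2 i with _ | _ | _
      · rfl
      · rw [hs] at h2; exact absurd h2 (by decide)
      · rw [hs] at h2; exact absurd h2 (by decide)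
    · exact ih (fun m'' hm'' => h m'' (by simp [hm''])) (by omega) m' hm'

theorem no_change {M : Machine α} (ms : List (Move M)) (h : reversals (fun _ => 0) ms = 0)
    (i : Fin M.k) (h0 : total ms i = 0) : ∀ m ∈ ms, m.2.2 i = 0 := by
  rcases same_sign ms _ h i with ⟨_, h1⟩ | ⟨_, h1⟩
  · exact zero_of_total ms i h1 h0
  · exact zero_of_total' ms i h1 h0

/-! ### No reversals -/

/-- The machine without counters. -/
abbrev strip (M : Machine α) : Machine α where
  Q := M.Q
  k := 0
  finQ := M.finQ
  start := M.start
  final := M.final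
  δ := fun q s _ => {m | (m.1, m.2.1, fun _ => (0 : SignType)) ∈ M.δ q s (fun _ => false)}

/-- A configuration of `strip M` as a configuration of `M`. -/
def emb {M : Machine α} (c : Config (strip M)) : Config M where
  state := c.state
  rest := c.rest
  count := fun _ => 0

/-- A move of `strip M` as a move of `M`. -/
def embM {M : Machine α} (m : Move (strip M)) : Move M := (m.1, m.2.1, fun _ => 0)

theorem embM_injective {M : Machine α} : Function.Injective (embM (M := M)) := by
  rintro ⟨q, b, f⟩ ⟨q', b', f'⟩ h
  have h1 := congrArg Prod.fst h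
  have h2 := congrArg (fun x => x.2.1) h
  refine Prod.ext h1 (Prod.ext h2 ?_)
  funext i
  exact i.elim0

theorem possible_emb {M : Machine α} {c : Config (strip M)} {m : Move (strip M)} :
    Possible c m ↔ Possible (emb c) (embM m) := by
  constructor
  · rintro ⟨h1, h2, _⟩
    refine ⟨?_, h2, fun i => by simp [emb, embM]⟩
    have : (fun i : Fin M.k => decide (0 < (emb c).count i)) = fun _ => false := by
      funext i
      simp [emb]
    rw [this]
    exact h1
  · rintro ⟨h1, h2, _⟩
    refine ⟨?_, h2, fun i => i.elim0⟩
    have : (fun i : Fin M.k => decide (0 < (emb c).count i)) = fun _ => false := by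
      funext i
      simp [emb]
    rw [this] at h1
    exact h1

theorem next_emb {M : Machine α} (c : Config (strip M)) (m : Move (strip M)) :
    emb (next c m) = next (emb c) (embM m) := by
  simp only [emb, next, embM]
  congr 1

theorem comp_emb {M : Machine α} {c c' : Config (strip M)} {ms : List (Move (strip M))}
    (h : Comp c ms c') : Comp (emb c) (ms.map embM) (emb c') := by
  induction h with
  | nil c => exact .nil _
  | cons h _ ih =>
    rw [next_emb] at ih
    exact .cons (possible_emb.mp h) ih

theorem comp_of_emb {M : Machine α} {d c' : Config M} {ms : List (Move M)} (h : Comp d ms c') :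
    ∀ (c : Config (strip M)), d = emb c → (∀ m ∈ ms, ∀ i, m.2.2 i = 0) →
      ∃ ms' c₀, ms = List.map embM ms' ∧ c' = emb c₀ ∧ Comp c ms' c₀ := by
  induction h with
  | nil d =>
    intro c hc _
    exact ⟨[], c, rfl, hc, .nil _⟩
  | @cons d c' m ms h _ ih =>
    intro c hc hms
    subst hc
    obtain ⟨m₀, rfl⟩ : ∃ m₀ : Move (strip M), m = embM m₀ := by
      refine ⟨(m.1, m.2.1, fun i => i.elim0), ?_⟩
      refine Prod.ext rfl (Prod.ext rfl ?_)
      funext i
      exact hms m (by simp) i
    obtain ⟨ms', c₀, rfl, rfl, h3⟩ := ih (next c m₀) (next_emb c m₀).symm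
      (fun m' hm' => hms m' (by simp [hm']))
    exact ⟨m₀ :: ms', c₀, rfl, rfl, .cons (possible_emb.mpr h) h3⟩

theorem LR_zero_strip (M : Machine α) : LR 0 (strip M) = LR 0 M := by
  ext w
  constructor
  · rintro ⟨ms, c', h1, h2, h3, _, _⟩
    refine ⟨ms.map embM, emb c', comp_emb h1, h2, h3, fun i => rfl, ?_⟩
    have : ∀ (ms : List (Move (strip M))) (D : Fin M.k → SignType),
        reversals D (ms.map embM) = 0 := by
      intro ms
      induction ms with
      | nil => intro D; rfl
      | cons m ms ih =>
        intro D
        simp only [List.map_cons, reversals, ih]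
        simp [embM]
    rw [this]
  · rintro ⟨ms, c', h1, h2, h3, h4, h5⟩
    have h6 : ∀ m ∈ ms, ∀ i, m.2.2 i = 0 := by
      intro m hm i
      refine no_change ms (Nat.le_zero.mp h5) i ?_ m hm
      have := h1.count i
      rw [h4 i] at this
      simpa [initial] using this.symm
    obtain ⟨ms', c₀, rfl, rfl, h7⟩ := comp_of_emb h1 (initial (strip M) w) rfl h6
    refine ⟨ms', c₀, h7, h2, h3, fun i => i.elim0, ?_⟩
    have : ∀ (ms : List (Move (strip M))) (D : Fin (strip M).k → SignType),
        reversals D ms = 0 := by
      intro ms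
      induction ms with
      | nil => intro D; rfl
      | cons m ms ih =>
        intro D
        simp only [reversals, ih]
        rw [Finset.card_eq_zero.mpr]
        ext i
        exact i.elim0
    rw [this]

theorem strip_mem {e : Bool} {M : Machine α} (h : M ∈ QRDCounter α e) :
    strip M ∈ QRDPBlind α e := by
  obtain ⟨⟨d, hd⟩, hdet, hend⟩ := h
  refine ⟨⟨⟨d, ?_⟩, ?_, ?_⟩, fun _ _ _ _ => rfl⟩
  · intro w ms₁ ms₂ c₁ c₂ h1 h2 h3
    have := hd w _ _ _ _ (comp_emb h1) (comp_emb h2) (by
      intro m hm
      obtain ⟨m', hm', rfl⟩ := List.mem_map.mp hm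
      exact h3 m' hm')
    simpa using this
  · intro c m m' h h'
    exact embM_injective (hdet _ _ _ (possible_emb.mp h) (possible_emb.mp h'))
  · intro he q z
    refine Set.eq_empty_iff_forall_notMem.mpr fun m hm => ?_
    have hm' : (m.1, m.2.1, fun _ => (0 : SignType)) ∈ M.δ q none (fun _ => false) := hm
    rw [hend he] at hm'
    exact hm'

/-! ### The language `a^n b^m`, `n ≤ m` -/

/-- The language of the words `a^n b^m` with `n ≤ m`. -/
def lang (a b : α) : Set (List α) :=
  {w | ∃ n m, n ≤ m ∧ w = List.replicate n a ++ List.replicate m b}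

/-- A deterministic one-counter machine for it. -/
abbrev oneCounter (a b : α) : Machine α where
  Q := Bool
  k := 1
  finQ := inferInstance
  start := false
  final := Set.univ
  δ := fun q s z => {m | (q = false ∧ s = some a ∧ m = (false, true, fun _ => 1)) ∨
    (s = some b ∧ m = (true, true, fun _ => if z 0 then -1 else 0))}

theorem oneCounter_mem {a b : α} (hab : a ≠ b) (e : Bool) : oneCounter a b ∈ QRDCounter α e := by
  refine ⟨⟨0, ?_⟩, ?_, ?_⟩
  · intro w ms₁ ms₂ c₁ c₂ _ h2 h3
    cases h2 with
    | nil => simp
    | @cons _ _ m ms h _ =>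
      have h4 := h3 m (by simp)
      rcases h.1 with ⟨_, _, rfl⟩ | ⟨_, rfl⟩ <;> simp at h4
  · rintro c m m' ⟨h, _⟩ ⟨h', _⟩
    rcases h with ⟨_, h1, rfl⟩ | ⟨h1, rfl⟩ <;> rcases h' with ⟨_, h1', rfl⟩ | ⟨h1', rfl⟩
    · rfl
    · rw [h1] at h1'
      exact absurd (Option.some.inj h1') hab
    · rw [h1] at h1'
      exact absurd (Option.some.inj h1').symm hab
    · rfl
  · intro _ q z
    ext m
    simp

theorem oneCounter_sound {a b : α} {c c' : Config (oneCounter a b)}
    {ms : List (Move (oneCounter a b))} (h : Comp c ms c') (h1 : c'.rest = [])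
    (h2 : c'.count 0 = 0) :
    (c.state = true → ∃ m, c.rest = List.replicate m b ∧ c.count 0 ≤ m) ∧
    (c.state = false → ∃ n m, c.rest = List.replicate n a ++ List.replicate m b ∧
      c.count 0 + n ≤ m) := by
  induction h with
  | nil c =>
    exact ⟨fun _ => ⟨0, by simpa using h1, by omega⟩, fun _ => ⟨0, 0, by simpa using h1, by omega⟩⟩
  | @cons c c' m ms h _ ih =>
    obtain ⟨ih1, ih2⟩ := ih h1 h2
    obtain ⟨hm, hne, hnn⟩ := h
    rcases hm with ⟨hq, hs, rfl⟩ | ⟨hs, rfl⟩
    · obtain ⟨rest', hr⟩ : ∃ r, c.rest = a :: r := by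
        cases hc : c.rest with
        | nil => rw [hc] at hs; simp at hs
        | cons x r =>
          rw [hc] at hs
          simp only [List.head?_cons, Option.some.injEq] at hs
          exact ⟨r, by rw [hs]⟩
      refine ⟨fun h => absurd (hq.symm.trans h) (by decide), fun _ => ?_⟩
      obtain ⟨n, m, h3, h4⟩ := ih2 rfl
      refine ⟨n + 1, m, ?_, ?_⟩
      · have h5 : (next c (false, true, fun _ => 1)).rest = rest' := by simp [next, hr]
        rw [hr, List.replicate_succ, List.cons_append, ← h3, h5]
      · simp only [next] at h4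
        have : ((1 : SignType) : ℤ) = 1 := rfl
        rw [this] at h4
        omega
    · obtain ⟨rest', hr⟩ : ∃ r, c.rest = b :: r := by
        cases hc : c.rest with
        | nil => rw [hc] at hs; simp at hs
        | cons x r =>
          rw [hc] at hs
          simp only [List.head?_cons, Option.some.injEq] at hs
          exact ⟨r, by rw [hs]⟩
      obtain ⟨m, h3, h4⟩ := ih1 rfl
      have h5 : (next c (true, true, fun _ => if decide (0 < c.count 0) = true then
        (-1 : SignType) else 0)).rest = rest' := by simp [next, hr]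
      have h6 : c.rest = List.replicate (m + 1) b := by
        rw [hr, List.replicate_succ, ← h3, h5]
      have h7 : c.count 0 ≤ m + 1 := by
        simp only [next] at h4
        by_cases h0 : 0 < c.count 0
        · simp only [h0, decide_true, if_true] at h4
          have : ((-1 : SignType) : ℤ) = -1 := rfl
          rw [this] at h4
          omega
        · omega
      exact ⟨fun _ => ⟨m + 1, h6, h7⟩, fun _ => ⟨0, m + 1, by simpa using h6, by omega⟩⟩

theorem oneCounter_a {a b : α} (n v : ℕ) (w : List α) :
    ∃ ms, Comp (M := oneCounter a b) ⟨false, List.replicate n a ++ w, fun _ => v⟩ ms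
      ⟨false, w, fun _ => v + n⟩ ∧ ∀ m ∈ ms, m.2.2 0 = 1 := by
  induction n generalizing v with
  | zero => exact ⟨[], .nil _, by simp⟩
  | succ n ih =>
    obtain ⟨ms, h1, h2⟩ := ih (v + 1)
    refine ⟨(false, true, fun _ => 1) :: ms, .cons ⟨Or.inl ⟨rfl, ?_, rfl⟩, ?_, ?_⟩ ?_, ?_⟩
    · simp [List.replicate_succ]
    · simp [List.replicate_succ]
    · intro i
      have : ((1 : SignType) : ℤ) = 1 := rfl
      simp only [this]
      omega
    · have e : next (M := oneCounter a b) ⟨false, List.replicate (n + 1) a ++ w, fun _ => v⟩
          (false, true, fun _ => 1) = ⟨false, List.replicate n a ++ w, fun _ => v + 1⟩ := by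
        simp only [next, List.replicate_succ, List.cons_append, List.tail_cons, if_true]
        congr 1
      rw [e]
      have e2 : v + (n + 1) = v + 1 + n := by omega
      rw [e2]
      exact h1
    · simpa using h2

theorem oneCounter_b {a b : α} (m v : ℕ) (q : Bool) :
    ∃ ms q', Comp (M := oneCounter a b) ⟨q, List.replicate m b, fun _ => v⟩ ms
      ⟨q', [], fun _ => v - m⟩ ∧ ∀ m ∈ ms, m.2.2 0 ≠ 1 := by
  induction m generalizing v q with
  | zero => exact ⟨[], q, .nil _, by simp⟩
  | succ m ih =>
    obtain ⟨ms, q', h1, h2⟩ := ih (v - 1) true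
    refine ⟨(true, true, fun _ => if decide (0 < v) = true then (-1 : SignType) else 0) :: ms, q',
      .cons ⟨Or.inr ⟨?_, rfl⟩, ?_, ?_⟩ ?_, ?_⟩
    · simp [List.replicate_succ]
    · simp [List.replicate_succ]
    · intro i
      by_cases h0 : 0 < v
      · have : ((-1 : SignType) : ℤ) = -1 := rfl
        simp only [h0, decide_true, if_true, this]
        omega
      · simp [h0]
    · have e : next (M := oneCounter a b) ⟨q, List.replicate (m + 1) b, fun _ => v⟩
          (true, true, fun _ => if decide (0 < v) = true then (-1 : SignType) else 0) =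
          ⟨true, List.replicate m b, fun _ => v - 1⟩ := by
        simp only [next, List.replicate_succ, List.tail_cons, if_true]
        congr 1
        funext _
        by_cases h0 : 0 < v
        · have : ((-1 : SignType) : ℤ) = -1 := rfl
          simp only [h0, decide_true, if_true, this]
          omega
        · simp only [h0, decide_false, Bool.false_eq_true, if_false]
          simp
          omega
      rw [e]
      have e2 : v - (m + 1) = v - 1 - m := by omega
      rw [e2]
      exact h1
    · intro m' hm'
      rcases List.mem_cons.mp hm' with rfl | hm'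
      · by_cases h0 : 0 < v
        · simp only [h0, decide_true, if_true]
          decide
        · simp only [h0, decide_false, Bool.false_eq_true, if_false]
          decide
      · exact h2 m' hm'

theorem reversals_up {a b : α} (ms : List (Move (oneCounter a b))) (h : ∀ m ∈ ms, m.2.2 0 = 1)
    (D : Fin 1 → SignType) (hD : D 0 ≠ -1) : reversals (M := oneCounter a b) D ms = 0 := by
  induction ms generalizing D with
  | nil => rfl
  | cons m ms ih =>
    have h1 := h m (by simp)
    simp only [reversals]
    rw [ih (fun m' hm' => h m' (by simp [hm'])) (turn D m) (by simp [turn, h1])]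
    rw [Nat.add_zero, Finset.card_eq_zero, Finset.filter_eq_empty_iff]
    intro i _
    have hi : i = 0 := Subsingleton.elim _ _
    subst hi
    rw [h1]
    exact fun h => hD h.2

theorem reversals_down {a b : α} (ms : List (Move (oneCounter a b))) (h : ∀ m ∈ ms, m.2.2 0 ≠ 1)
    (D : Fin 1 → SignType) : reversals (M := oneCounter a b) D ms ≤ if D 0 = 1 then 1 else 0 := by
  induction ms generalizing D with
  | nil => simp [reversals]
  | cons m ms ih =>
    have h1 := h m (by simp)
    have ih' := ih (fun m' hm' => h m' (by simp [hm'])) (turn D m)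
    simp only [reversals]
    have hcard : (Finset.univ.filter fun i : Fin (oneCounter a b).k =>
        m.2.2 i ≠ 0 ∧ D i = - m.2.2 i).card ≤ if m.2.2 0 ≠ 0 ∧ D 0 = - m.2.2 0 then 1 else 0 := by
      split_ifs with h2
      · exact (Finset.card_le_univ _).trans (by simp)
      · rw [Nat.le_zero, Finset.card_eq_zero, Finset.filter_eq_empty_iff]
        intro i _
        have hi : i = 0 := Subsingleton.elim _ _
        subst hi
        exact h2
    refine (Nat.add_le_add hcard ih').trans ?_
    simp only [turn]
    clear hcard ih' ih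
    generalize m.2.2 0 = x at *
    generalize D 0 = y at *
    revert h1
    revert x y
    decide

theorem LR_oneCounter {a b : α} {c : ℕ} (hc : 1 ≤ c) : LR c (oneCounter a b) = lang a b := by
  ext w
  constructor
  · rintro ⟨ms, c', h1, h2, _, h4, _⟩
    obtain ⟨n, m, h5, h6⟩ := (oneCounter_sound h1 h2 (h4 0)).2 rfl
    exact ⟨n, m, by simpa [initial] using h6, h5⟩
  · rintro ⟨n, m, hnm, rfl⟩
    obtain ⟨ms₁, h1, h2⟩ := oneCounter_a (a := a) (b := b) n 0 (List.replicate m b)
    obtain ⟨ms₂, q', h3, h4⟩ := oneCounter_b (a := a) (b := b) m (0 + n) false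
    refine ⟨ms₁ ++ ms₂, _, h1.append h3, rfl, trivial, fun i => ?_, ?_⟩
    · show 0 + n - m = 0
      omega
    · rw [reversals_append, reversals_up ms₁ h2 _ (by decide), Nat.zero_add]
      refine (reversals_down ms₂ h4 _).trans ?_
      split_ifs <;> omega

/-! ### Partially blind machines do not accept it -/

/-- Contents of the counters after a move. -/
def upd {M : Machine α} (v : Fin M.k → ℕ) (m : Move M) : Fin M.k → ℕ :=
  fun i => ((v i : ℤ) + (m.2.2 i : ℤ)).toNat

/-- `Reads q v u ms q' v'`: the moves `ms` read exactly the word `u`. -/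
inductive Reads {M : Machine α} :
    M.Q → (Fin M.k → ℕ) → List α → List (Move M) → M.Q → (Fin M.k → ℕ) → Prop
  | nil (q : M.Q) (v : Fin M.k → ℕ) : Reads q v [] [] q v
  | stay {q : M.Q} {v : Fin M.k → ℕ} {s : α} {u : List α} {m : Move M} {ms : List (Move M)}
      {q' : M.Q} {v' : Fin M.k → ℕ} (hm : m ∈ M.δ q (some s) (fun i => decide (0 < v i)))
      (hadv : m.2.1 = false) (hnn : ∀ i, 0 ≤ (v i : ℤ) + (m.2.2 i : ℤ))
      (h : Reads m.1 (upd v m) (s :: u) ms q' v') : Reads q v (s :: u) (m :: ms) q' v'
  | move {q : M.Q} {v : Fin M.k → ℕ} {s : α} {u : List α} {m : Move M} {ms : List (Move M)}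
      {q' : M.Q} {v' : Fin M.k → ℕ} (hm : m ∈ M.δ q (some s) (fun i => decide (0 < v i)))
      (hadv : m.2.1 = true) (hnn : ∀ i, 0 ≤ (v i : ℤ) + (m.2.2 i : ℤ))
      (h : Reads m.1 (upd v m) u ms q' v') : Reads q v (s :: u) (m :: ms) q' v'

theorem Reads.comp {M : Machine α} {q q' : M.Q} {v v' : Fin M.k → ℕ} {u : List α}
    {ms : List (Move M)} (h : Reads q v u ms q' v') (y : List α) :
    Comp ⟨q, u ++ y, v⟩ ms ⟨q', y, v'⟩ := by
  induction h with
  | nil q v => exact .nil _
  | @stay q v s u m ms q' v' hm hadv hnn h ih =>
    refine .cons ⟨hm, fun _ => by simp, hnn⟩ ?_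
    have e : next (⟨q, s :: u ++ y, v⟩ : Config M) m = ⟨m.1, s :: u ++ y, upd v m⟩ := by
      simp only [next, hadv, Bool.false_eq_true, if_false]
      rfl
    rw [e]
    exact ih
  | @move q v s u m ms q' v' hm hadv hnn h ih =>
    refine .cons ⟨hm, fun _ => by simp, hnn⟩ ?_
    have e : next (⟨q, s :: u ++ y, v⟩ : Config M) m = ⟨m.1, u ++ y, upd v m⟩ := by
      simp only [next, hadv, if_true]
      rfl
    rw [e]
    exact ih

theorem Comp.reads {M : Machine α} {c c' : Config M} {ms : List (Move M)} (h : Comp c ms c') :
    ∀ (u y : List α), c.rest = u ++ y → c'.rest = [] →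
      ∃ ms₁ ms₂ q v, ms = ms₁ ++ ms₂ ∧ Reads c.state c.count u ms₁ q v ∧ Comp ⟨q, y, v⟩ ms₂ c' := by
  induction h with
  | nil c =>
    intro u y h1 h2
    rw [h2] at h1
    obtain ⟨rfl, rfl⟩ := List.append_eq_nil_iff.mp h1.symm
    refine ⟨[], [], c.state, c.count, rfl, .nil _ _, ?_⟩
    rw [← h2]
    exact .nil _
  | @cons c c' m ms h h' ih =>
    intro u y h1 h2
    cases u with
    | nil =>
      refine ⟨[], m :: ms, c.state, c.count, rfl, .nil _ _, ?_⟩
      have e : c = ⟨c.state, y, c.count⟩ := by
        rw [List.nil_append] at h1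
        rw [← h1]
      rw [← e]
      exact .cons h h'
    | cons s u =>
      have hhead : c.rest.head? = some s := by rw [h1]; rfl
      obtain ⟨hm, hne, hnn⟩ := h
      rw [hhead] at hm
      cases hadv : m.2.1 with
      | false =>
        obtain ⟨ms₁, ms₂, q, v, rfl, h3, h4⟩ := ih (s :: u) y (by simp [next, hadv, h1]) h2
        exact ⟨m :: ms₁, ms₂, q, v, rfl, .stay hm hadv hnn h3, h4⟩
      | true =>
        obtain ⟨ms₁, ms₂, q, v, rfl, h3, h4⟩ := ih u y (by simp [next, hadv, h1]) h2
        exact ⟨m :: ms₁, ms₂, q, v, rfl, .move hm hadv hnn h3, h4⟩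

theorem Reads.total {M : Machine α} {q q' : M.Q} {v v' : Fin M.k → ℕ} {u : List α}
    {ms : List (Move M)} (h : Reads q v u ms q' v') (i : Fin M.k) :
    (v' i : ℤ) = v i + total ms i :=
  (h.comp []).count i

theorem same_move {M : Machine α} (hdet : Deterministic M) (hpb : PartiallyBlind M) {q : M.Q}
    {s : α} {z z' : Fin M.k → Bool} {m m' : Move M} (hm : m ∈ M.δ q (some s) z)
    (hm' : m' ∈ M.δ q (some s) z') : m = m' := by
  have hnn : ∀ x : SignType, 0 ≤ ((1 : ℕ) : ℤ) + (x : ℤ) := by decide
  refine hdet ⟨q, [s], fun _ => 1⟩ m m' ⟨?_, fun _ => by simp, fun i => hnn _⟩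
    ⟨?_, fun _ => by simp, fun i => hnn _⟩
  · rw [hpb _ _ _ z]
    exact hm
  · rw [hpb _ _ _ z']
    exact hm'

/-- The moves of a partially blind deterministic machine do not depend on the counters. -/
theorem Reads.unique {M : Machine α} (hdet : Deterministic M) (hpb : PartiallyBlind M)
    {q q₁ : M.Q} {v v₁ : Fin M.k → ℕ} {u : List α} {ms : List (Move M)}
    (h : Reads q v u ms q₁ v₁) : ∀ {v' : Fin M.k → ℕ} {ms' : List (Move M)} {q₁' : M.Q}
      {v₁' : Fin M.k → ℕ}, Reads q v' u ms' q₁' v₁' → ms = ms' ∧ q₁ = q₁' := by
  induction h with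
  | nil q v =>
    intro v' ms' q₁' v₁' h'
    cases h'
    exact ⟨rfl, rfl⟩
  | stay hm hadv hnn h ih =>
    intro v' ms' q₁' v₁' h'
    cases h' with
    | stay hm' hadv' hnn' h' =>
      obtain rfl := same_move hdet hpb hm hm'
      obtain ⟨rfl, rfl⟩ := ih h'
      exact ⟨rfl, rfl⟩
    | move hm' hadv' hnn' h' =>
      obtain rfl := same_move hdet hpb hm hm'
      rw [hadv] at hadv'
      exact absurd hadv' (by decide)
  | move hm hadv hnn h ih =>
    intro v' ms' q₁' v₁' h'
    cases h' with
    | stay hm' hadv' hnn' h' =>
      obtain rfl := same_move hdet hpb hm hm'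
      rw [hadv] at hadv'
      exact absurd hadv' (by decide)
    | move hm' hadv' hnn' h' =>
      obtain rfl := same_move hdet hpb hm hm'
      obtain ⟨rfl, rfl⟩ := ih h'
      exact ⟨rfl, rfl⟩

theorem end_moves {M : Machine α} {c c' : Config M} {ms : List (Move M)} (h : Comp c ms c')
    (hc : c.rest = []) : (∀ m ∈ ms, m.2.1 = false) ∧ c'.rest = [] := by
  induction h with
  | nil c => exact ⟨by simp, hc⟩
  | @cons c c' m ms h _ ih =>
    have hm : m.2.1 = false := by
      cases hadv : m.2.1 with
      | false => rfl
      | true => exact absurd hc (h.2.1 hadv)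
    obtain ⟨h1, h2⟩ := ih (by simp [next, hm, hc])
    exact ⟨by simpa [hm] using h1, h2⟩

theorem total_ge {M : Machine α} (ms : List (Move M)) (i : Fin M.k) :
    -(ms.length : ℤ) ≤ total ms i := by
  induction ms with
  | nil => simp [total]
  | cons m ms ih =>
    have : ∀ x : SignType, -1 ≤ (x : ℤ) := by decide
    have h1 := this (m.2.2 i)
    simp only [total, List.map_cons, List.sum_cons, List.length_cons] at ih ⊢
    push_cast
    omega

theorem replicate_eq {a b : α} (hab : a ≠ b) {n m n' m' : ℕ}
    (h : List.replicate n a ++ List.replicate m b = List.replicate n' a ++ List.replicate m' b) :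
    n = n' ∧ m = m' := by
  classical
  have h1 := congrArg (List.count a) h
  have h2 := congrArg (List.count b) h
  simp only [List.count_append, List.count_replicate] at h1 h2
  simp only [beq_self_eq_true, if_true, beq_eq_false_iff_ne.mpr hab,
    beq_eq_false_iff_ne.mpr hab.symm, Bool.false_eq_true, if_false] at h1 h2
  omega

theorem blind_not {a b : α} (hab : a ≠ b) (c : ℕ) (M : Machine α) (hqr : QuasiRealtime M)
    (hdet : Deterministic M) (hpb : PartiallyBlind M) : LR c M ≠ lang a b := by
  intro hL
  classical
  obtain ⟨d, hd⟩ := hqr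
  have := M.finQ
  let _ : Fintype M.Q := Fintype.ofFinite _
  have : Nonempty M.Q := ⟨M.start⟩
  have : Nonempty (Config M) := ⟨initial M []⟩
  have H : ∀ n m : ℕ, n ≤ m → ∃ (α' β γ : List (Move M)) (q q' : M.Q) (v v' : Fin M.k → ℕ)
      (c' : Config M), Reads M.start (fun _ => 0) (List.replicate n a) α' q v ∧
      Reads q v (List.replicate m b) β q' v' ∧ Comp ⟨q', [], v'⟩ γ c' ∧ c'.rest = [] ∧
      c'.state ∈ M.final ∧ (∀ i, c'.count i = 0) ∧
      reversals (fun _ => 0) (α' ++ (β ++ γ)) ≤ c ∧ ∀ i, v' i ≤ d := by
    intro n m hnm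
    have hw : List.replicate n a ++ List.replicate m b ∈ LR c M := by
      rw [hL]
      exact ⟨n, m, hnm, rfl⟩
    obtain ⟨ms, c', h1, h2, h3, h4, h5⟩ := hw
    obtain ⟨α', ms', q, v, rfl, h6, h7⟩ := h1.reads _ _ rfl h2
    obtain ⟨β, γ, q', v', rfl, h8, h9⟩ := h7.reads (List.replicate m b) [] (by simp) h2
    refine ⟨α', β, γ, q, q', v, v', c', h6, h8, h9, h2, h3, h4, h5, fun i => ?_⟩
    have h10 : Comp (initial M (List.replicate n a ++ List.replicate m b)) (α' ++ β)
        ⟨q', [], v'⟩ := by
      refine (h6.comp (List.replicate m b)).append ?_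
      simpa using h8.comp []
    have hlen : γ.length ≤ d := hd _ _ _ _ _ h10 h9 (end_moves h9 rfl).1
    have e1 := h9.count i
    rw [h4 i] at e1
    have e2 := total_ge γ i
    simp only at e1
    omega
  choose! α' β γ q q' v v' c' h1 h2 h3 h4 h5 h6 h7 h8 using H
  -- the first part does not depend on `m`
  have hα : ∀ n m, n ≤ m → α' n m = α' n n ∧ q n m = q n n :=
    fun n m hnm => (h1 n m hnm).unique hdet hpb (h1 n n le_rfl)
  have hv : ∀ n m, n ≤ m → v n m = v n n := by
    intro n m hnm
    funext i
    have e1 := (h1 n m hnm).total i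
    have e2 := (h1 n n le_rfl).total i
    rw [(hα n m hnm).1] at e1
    omega
  -- the contents of the counters differ by at most `d`
  have hclose : ∀ n n', q n n = q n' n' → ∀ i, v n n i ≤ v n' n' i + d := by
    intro n n' hq i
    have r1 := h2 n (max n n') (le_max_left _ _)
    have r2 := h2 n' (max n n') (le_max_right _ _)
    rw [(hα n _ (le_max_left _ _)).2] at r1
    rw [(hα n' _ (le_max_right _ _)).2, ← hq] at r2
    have e := (r1.unique hdet hpb r2).1
    have e1 := r1.total i
    have e2 := r2.total i
    have e3 := h8 n (max n n') (le_max_left _ _) i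
    rw [hv n _ (le_max_left _ _)] at e1
    rw [hv n' _ (le_max_right _ _)] at e2
    rw [e] at e1
    omega
  obtain ⟨V, hV⟩ : ∃ V, ∀ n i, v n n i ≤ V := by
    have hrep : ∀ p : M.Q, ∃ W, ∀ n, q n n = p → ∀ i, v n n i ≤ W := by
      intro p
      by_cases hp : ∃ n₀, q n₀ n₀ = p
      · obtain ⟨n₀, hn₀⟩ := hp
        refine ⟨(Finset.univ.sup fun i => v n₀ n₀ i) + d, fun n hn i => ?_⟩
        have := hclose n n₀ (hn.trans hn₀.symm) i
        have h9 : v n₀ n₀ i ≤ Finset.univ.sup fun i => v n₀ n₀ i :=
          Finset.le_sup (f := fun i => v n₀ n₀ i) (Finset.mem_univ i)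
        omega
      · exact ⟨0, fun n hn => absurd ⟨n, hn⟩ hp⟩
    choose W hW using hrep
    refine ⟨Finset.univ.sup W, fun n i => (hW (q n n) n rfl i).trans ?_⟩
    exact Finset.le_sup (f := W) (Finset.mem_univ _)
  have hR : ∀ n, reversals (fun _ => 0) (α' n n) ≤ c := by
    intro n
    have := h7 n n le_rfl
    rw [reversals_append] at this
    omega
  -- the pigeonhole principle
  let F : ℕ → M.Q × (Fin M.k → Fin (V + 1)) × (Fin M.k → SignType) × Fin (c + 1) := fun n =>
    (q n n, fun i => ⟨v n n i, Nat.lt_succ_of_le (hV n i)⟩, turns (fun _ => 0) (α' n n),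
      ⟨reversals (fun _ => 0) (α' n n), Nat.lt_succ_of_le (hR n)⟩)
  obtain ⟨n, n', hnn, hF⟩ := Finite.exists_ne_map_eq_of_infinite F
  wlog hlt : n < n' generalizing n n' with hwlog
  · exact hwlog n' n hnn.symm hF.symm (by omega)
  have f1 : q n n = q n' n' := congrArg (fun x => x.1) hF
  have f2 : v n n = v n' n' := by
    funext i
    have := congrArg (fun x => (x.2.1 i : ℕ)) hF
    exact this
  have f3 : turns (fun _ => 0) (α' n n) = turns (fun _ => 0) (α' n' n') :=
    congrArg (fun x => x.2.2.1) hF
  have f4 : reversals (fun _ => 0) (α' n n) = reversals (fun _ => 0) (α' n' n') :=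
    congrArg (fun x => (x.2.2.2 : ℕ)) hF
  have hmem : List.replicate n' a ++ List.replicate n b ∈ LR c M := by
    refine ⟨α' n' n' ++ (β n n ++ γ n n), c' n n, ?_, h4 n n le_rfl, h5 n n le_rfl,
      h6 n n le_rfl, ?_⟩
    · refine ((h1 n' n' le_rfl).comp (List.replicate n b)).append ?_
      rw [← f1, ← f2]
      refine Comp.append ?_ (h3 n n le_rfl)
      simpa using (h2 n n le_rfl).comp []
    · rw [reversals_append, ← f3, ← f4, ← reversals_append]
      exact h7 n n le_rfl
  rw [hL] at hmem
  obtain ⟨n₁, m₁, hle, heq⟩ := hmem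
  obtain ⟨e1, e2⟩ := replicate_eq hab heq
  omega

/-- **Deterministic partially blind and general deterministic quasi-realtime multicounter machines
with at most `c` reversals accept the same languages if and only if `c = 0`** (over every alphabet
with at least two letters, with or without an end marker); the machines which are not partially
blind accept at least as many for every `c`. -/
theorem result (α : Type) [Nontrivial α] (e : Bool) (c : ℕ) :
    LRClass c (QRDPBlind α e) ⊆ LRClass c (QRDCounter α e) ∧
    (LRClass c (QRDPBlind α e) = LRClass c (QRDCounter α e) ↔ c = 0) := by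
  have hsub : LRClass c (QRDPBlind α e) ⊆ LRClass c (QRDCounter α e) := by
    rintro L ⟨M, hM, rfl⟩
    exact ⟨M, hM.1, rfl⟩
  refine ⟨hsub, fun h => ?_, ?_⟩
  · by_contra hc
    obtain ⟨a, b, hab⟩ := exists_pair_ne α
    have h1 : lang a b ∈ LRClass c (QRDCounter α e) :=
      ⟨oneCounter a b, oneCounter_mem hab e, (LR_oneCounter (by omega)).symm⟩
    rw [← h] at h1
    obtain ⟨M, ⟨⟨hqr, hdet, _⟩, hpb⟩, hL⟩ := h1
    exact blind_not hab c M hqr hdet hpb hL.symm
  · rintro rfl
    refine Set.Subset.antisymm hsub ?_
    rintro L ⟨M, hM, rfl⟩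
    exact ⟨strip M, strip_mem hM, (LR_zero_strip M).symm⟩

end Pool.Agent.Results.MP_24384b_lc.BlindIffNoReversal
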